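import Mathlib
import Pool.Agent.MP_edaf86_an.Stmt
import Pool.Agent.MP_edaf86_an.NvD

namespace Pool.Agent.Results.MP_edaf86_an.CorankTwo
open MeasureTheory

theorem result (n : ℕ) (hn : 2 ≤ n) (q : ℝ) (hq : 1 ≤ q) (Ω : Set (Fin n → ℝ)) (hO : IsOpen Ω)
    (hc : IsConnected Ω) (f : (Fin n → ℝ) → Fin n → ℝ)
    (Df : (Fin n → ℝ) → Matrix (Fin n) (Fin n) ℝ) (hf : ContinuousOn f Ω) (hi : Set.InjOn f Ω)
    (h : SJ.W2q q Ω f Df) (hp : 0 < volume {x | x ∈ Ω ∧ 0 < (Df x).det})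
    (hm : 0 < volume {x | x ∈ Ω ∧ (Df x).det < 0}) :
    0 < Measure.hausdorffMeasure ((n : ℝ) - 1)
      {x | x ∈ Ω ∧ ∃ B : Matrix (Fin n) (Fin n) ℝ, B.rank + 2 ≤ n ∧ ∀ a i : Fin n,
        Filter.Tendsto (fun r : ℝ => ⨍ y in Metric.ball x r, |Df y a i - B a i|)
          (nhdsWithin 0 (Set.Ioi 0)) (nhds 0)} := by
  obtain ⟨p, rfl⟩ := Nat.exists_eq_add_of_le' hn
  have e : ((p + 2 : ℕ) : ℝ) - 1 = (p : ℝ) + 1 := by push_cast; ring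
  rw [e]
  exact NV.corank_two hq hO hc hf hi h hp hm

end Pool.Agent.Results.MP_edaf86_an.CorankTwo
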