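import Mathlib
import Pool.Agent.MP_edaf86_an.Stmt
import Pool.Agent.Mg.Fedaf86.Gf2c4e1

namespace Pool.Agent.Results.MP_edaf86_an.NoSignChange
open MeasureTheory

theorem result (n : ℕ) (hn : 2 ≤ n) (q : ℝ) (hq : 2 < q) (Ω : Set (Fin n → ℝ)) (hO : IsOpen Ω)
    (hc : IsConnected Ω) (f : (Fin n → ℝ) → Fin n → ℝ)
    (Df : (Fin n → ℝ) → Matrix (Fin n) (Fin n) ℝ) (hf : ContinuousOn f Ω) (hi : Set.InjOn f Ω)
    (h : SJ.W2q q Ω f Df) :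
    (∀ᵐ x ∂(volume.restrict Ω), 0 ≤ (Df x).det) ∨
      (∀ᵐ x ∂(volume.restrict Ω), (Df x).det ≤ 0) := by
  obtain ⟨p, rfl⟩ := Nat.exists_eq_add_of_le' hn
  exact SN.no_sign_change hq hO hc hf hi h

end Pool.Agent.Results.MP_edaf86_an.NoSignChange
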