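import Mathlib
import Pool.Agent.MP_edaf86_an.Stmt
import Pool.Agent.MP_edaf86_an.NvB

namespace Pool.Agent.Results.MP_edaf86_an.NonVanishing
open MeasureTheory

theorem result (n : ℕ) (hn : 2 ≤ n) (q : ℝ) (hq : 1 ≤ q) (Ω : Set (Fin n → ℝ)) (hO : IsOpen Ω)
    (f : (Fin n → ℝ) → Fin n → ℝ) (Df : (Fin n → ℝ) → Matrix (Fin n) (Fin n) ℝ)
    (hf : ContinuousOn f Ω) (h : SJ.W2q q Ω f Df) (U : Set (Fin n → ℝ)) (hU : IsOpen U)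
    (hne : U.Nonempty) (hUΩ : U ⊆ Ω) (h0 : ∀ᵐ x ∂(volume.restrict U), (Df x).det = 0) :
    ∃ (τ : ℝ) (γ : ℝ → Fin n → ℝ), 0 < τ ∧
      (∀ s t : ℝ, |s - t| / 2 ≤ ‖γ s - γ t‖ ∧ ‖γ s - γ t‖ ≤ 2 * |s - t|) ∧
      ∀ t ∈ Set.Icc 0 τ, γ t ∈ U ∧ f (γ t) = f (γ 0) := by
  obtain ⟨p, rfl⟩ := Nat.exists_eq_add_of_le' hn
  exact NV.non_vanishing hq hO hf h hU hne hUΩ h0

end Pool.Agent.Results.MP_edaf86_an.NonVanishing
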