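import Mathlib
import Pool.Agent.MP_edaf86_an.Stmt
import Pool.Agent.Mg.Xedaf86.G55784b

namespace Pool.Agent.Results.MP_edaf86_an.SignChange
open MeasureTheory

theorem result (n : ℕ) (hn : 7 ≤ n) (q : ℝ) (hq1 : 1 ≤ q) (hq2 : q < 2)
    (hq3 : n ≤ 9 → q < 3 / 2) :
    ∃ Ω : Set (Fin n → ℝ), IsOpen Ω ∧ IsConnected Ω ∧
      ∃ (f : (Fin n → ℝ) → Fin n → ℝ) (Df : (Fin n → ℝ) → Matrix (Fin n) (Fin n) ℝ),
        Topology.IsEmbedding (fun x : Ω => f x) ∧ SJ.W2q q Ω f Df ∧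
        0 < volume {x ∈ Ω | 0 < (Df x).det} ∧ 0 < volume {x ∈ Ω | (Df x).det < 0} :=
  SK.main2 n q hq1 ((Nat.lt_or_ge n 10).elim (fun h => Or.inl ⟨hn, hq3 (by omega)⟩)
    fun h => Or.inr ⟨h, hq2⟩)

end Pool.Agent.Results.MP_edaf86_an.SignChange
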